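import Pool.Agent.AFJ.Stmts

set_option autoImplicit false

open scoped BigOperators Matrix

noncomputable section

namespace Pool.Agent.AFJ.H2

open Pool.Agent.LE.QF Pool.Agent.AFJ

variable {X : Type} [Fintype X] [DecidableEq X]

/-- `(S u)_x² ≤ S_xx qf S u` for a symmetric nonnegative form -/
theorem mulVec_sq_le (S : Matrix X X ℝ) (hS : ∀ x y, S x y = S y x) (hS0 : ∀ h, 0 ≤ qf S h)
    (u : X → ℝ) (x : X) : (S *ᵥ u) x ^ 2 ≤ S x x * qf S u := by
  set v := S *ᵥ u with hv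
  set q := qf S u with hq
  have key : ∀ t : ℝ, 0 ≤ S x x * (t * t) + (2 * v x) * t + q := fun t => by
    have h1 := hS0 (u + t • Pi.single x 1)
    have e1 : qf S (u + t • Pi.single x 1) = S x x * (t * t) + (2 * v x) * t + q := by
      have e2 : S *ᵥ (u + t • Pi.single x 1) = v + t • fun a => S a x := by
        rw [Matrix.mulVec_add, Matrix.mulVec_smul]
        congr 2
        ext a; simp
      simp only [qf, e2, Pi.add_apply, Pi.smul_apply, smul_eq_mul]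
      have e3 : ∀ a, (u a + t * (Pi.single x 1 : X → ℝ) a) * (v a + t * S a x) =
          u a * v a + t * (u a * S a x) + (Pi.single x 1 : X → ℝ) a * (t * v a) +
          (Pi.single x 1 : X → ℝ) a * (t * t * S a x) := fun a => by ring
      simp only [e3, Finset.sum_add_distrib]
      have e4 : ∀ w : X → ℝ, ∑ a, (Pi.single x 1 : X → ℝ) a * w a = w x := fun w => by
        simp [Pi.single_apply]
      rw [e4, e4, ← Finset.mul_sum]
      have e5 : ∑ a, u a * S a x = v x := by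
        rw [hv]; simp only [Matrix.mulVec, dotProduct]
        exact Finset.sum_congr rfl fun a _ => by rw [hS x a]; ring
      rw [e5, hq, qf]; ring
    rw [e1] at h1; exact h1
  have := discrim_le_zero key
  rw [discrim] at this; nlinarith

/-- `qf S u ≤ S0 (∑_{x ∈ A} |u_x|)²` if `u` vanishes outside of `A` -/
theorem qf_le_sq (S : Matrix X X ℝ) (hS : ∀ x y, S x y = S y x) (hS0 : ∀ h, 0 ≤ qf S h)
    (A : Finset X) (S0 : ℝ) (hA : ∀ x ∈ A, S x x ≤ S0) (hS00 : 0 ≤ S0) (u : X → ℝ)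
    (hu : ∀ x, x ∉ A → u x = 0) : qf S u ≤ S0 * (∑ x ∈ A, |u x|) ^ 2 := by
  have hq0 := hS0 u
  have e1 : qf S u = ∑ x ∈ A, u x * (S *ᵥ u) x := by
    rw [qf]
    refine (Finset.sum_subset (Finset.subset_univ A) fun x _ hx => ?_).symm
    rw [hu x hx, zero_mul]
  have h1 : ∀ x ∈ A, |(S *ᵥ u) x| ≤ Real.sqrt (S0 * qf S u) := fun x hx => by
    refine Real.le_sqrt_of_sq_le ?_
    rw [sq_abs]
    exact (mulVec_sq_le S hS hS0 u x).trans (mul_le_mul_of_nonneg_right (hA x hx) hq0)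
  have h2 : qf S u ≤ (∑ x ∈ A, |u x|) * Real.sqrt (S0 * qf S u) := by
    rw [Finset.sum_mul]
    refine e1.le.trans (Finset.sum_le_sum fun x hx => ?_)
    refine (le_abs_self _).trans ?_
    rw [abs_mul]
    exact mul_le_mul_of_nonneg_left (h1 x hx) (abs_nonneg _)
  have h3 : qf S u ^ 2 ≤ ((∑ x ∈ A, |u x|) * Real.sqrt (S0 * qf S u)) ^ 2 :=
    pow_le_pow_left₀ hq0 h2 2
  rw [mul_pow, Real.sq_sqrt (mul_nonneg hS00 hq0)] at h3
  rcases hq0.lt_or_eq with h5 | h5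
  · have : qf S u * qf S u ≤ qf S u * (S0 * (∑ x ∈ A, |u x|) ^ 2) := by nlinarith
    exact le_of_mul_le_mul_left this h5
  · rw [← h5]; positivity

theorem nbs : NbsStmt := by
  intro hB X _ _ G κ A b f S κv S0 r hN hκv hr hκb hrho hS hS0 hA
  obtain ⟨h1, h2, -, -, h5, h6⟩ := hB X G κ A f hN
  have hSd : ∀ x, 0 ≤ S x x := fun x => by
    have := hS0 (Pi.single x 1)
    simpa [qf, Pi.single_apply] using this
  rcases A.eq_empty_or_nonempty with hAe | ⟨x₀, hx₀⟩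
  · subst hAe
    have z1 : ∀ c, Ec G κ ∅ c *ᵥ f = 0 := fun c => by
      funext x
      exact h2 c x (Finset.notMem_empty x)
    have z2 : qf (EE G κ ∅) f = 0 := by rw [h6]; simp
    have z3 : qf S (0 : X → ℝ) = 0 := by simp [qf]
    simp only [z1, z2, z3]
    simp
  have hS00 : 0 ≤ S0 := (hSd x₀).trans (hA x₀ hx₀)
  -- one coordinate
  have key1 : ∀ c ∈ b, qf S (Ec G κ A c *ᵥ f) ≤
      S0 * (4 * (r * ∑ x ∈ A, κ x * ‖bet G κ A f x c‖ ^ 2)) := by
    intro c hc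
    refine (qf_le_sq S hS hS0 A S0 hA hS00 _ (h2 c)).trans ?_
    refine mul_le_mul_of_nonneg_left ?_ hS00
    have a1 : ∑ x ∈ A, |(Ec G κ A c *ᵥ f) x| ≤
        2 * ∑ x ∈ A, (Real.sqrt (κ x) * ‖G x c‖) * (Real.sqrt (κ x) * ‖bet G κ A f x c‖) := by
      rw [Finset.mul_sum]
      refine Finset.sum_le_sum fun x hx => ?_
      rw [h1 c x hx, abs_neg, abs_mul, abs_mul, abs_two, abs_of_pos (hN.hκ x)]
      have b1 : |(G x c * bet G κ A f x c).re| ≤ ‖G x c‖ * ‖bet G κ A f x c‖ := by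
        rw [← norm_mul]; exact Complex.abs_re_le_norm _
      have b2 : Real.sqrt (κ x) * Real.sqrt (κ x) = κ x := Real.mul_self_sqrt (hN.hκ x).le
      calc 2 * κ x * |(G x c * bet G κ A f x c).re|
          ≤ 2 * κ x * (‖G x c‖ * ‖bet G κ A f x c‖) :=
            mul_le_mul_of_nonneg_left b1 (mul_nonneg zero_le_two (hN.hκ x).le)
        _ = 2 * (Real.sqrt (κ x) * Real.sqrt (κ x) * (‖G x c‖ * ‖bet G κ A f x c‖)) := by
            rw [b2]; ring
        _ = _ := by ring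
    have a0 : 0 ≤ ∑ x ∈ A, |(Ec G κ A c *ᵥ f) x| := Finset.sum_nonneg fun x _ => abs_nonneg _
    have a2 := Finset.sum_mul_sq_le_sq_mul_sq A (fun x => Real.sqrt (κ x) * ‖G x c‖)
      (fun x => Real.sqrt (κ x) * ‖bet G κ A f x c‖)
    have a3 : ∑ x ∈ A, (Real.sqrt (κ x) * ‖G x c‖) ^ 2 = rho G κ A c := by
      rw [rho]
      refine Finset.sum_congr rfl fun x _ => ?_
      rw [mul_pow, Real.sq_sqrt (hN.hκ x).le, KK, hN.hs c x]
    have a4 : ∑ x ∈ A, (Real.sqrt (κ x) * ‖bet G κ A f x c‖) ^ 2 =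
        ∑ x ∈ A, κ x * ‖bet G κ A f x c‖ ^ 2 :=
      Finset.sum_congr rfl fun x _ => by rw [mul_pow, Real.sq_sqrt (hN.hκ x).le]
    rw [a3, a4] at a2
    have a5 : 0 ≤ ∑ x ∈ A, κ x * ‖bet G κ A f x c‖ ^ 2 :=
      Finset.sum_nonneg fun x _ => mul_nonneg (hN.hκ x).le (sq_nonneg _)
    calc (∑ x ∈ A, |(Ec G κ A c *ᵥ f) x|) ^ 2
        ≤ (2 * ∑ x ∈ A, (Real.sqrt (κ x) * ‖G x c‖) *
            (Real.sqrt (κ x) * ‖bet G κ A f x c‖)) ^ 2 := pow_le_pow_left₀ a0 a1 2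
      _ = 4 * (∑ x ∈ A, (Real.sqrt (κ x) * ‖G x c‖) *
            (Real.sqrt (κ x) * ‖bet G κ A f x c‖)) ^ 2 := by ring
      _ ≤ 4 * (rho G κ A c * ∑ x ∈ A, κ x * ‖bet G κ A f x c‖ ^ 2) :=
          mul_le_mul_of_nonneg_left a2 (by norm_num)
      _ ≤ _ := mul_le_mul_of_nonneg_left
          (mul_le_mul_of_nonneg_right (hrho c hc) a5) (by norm_num)
  -- the sum over the coordinates
  have key2 : ∑ c ∈ b, ∑ x ∈ A, κ x * ‖bet G κ A f x c‖ ^ 2 ≤ 2 / κv * qf (EE G κ A) f := by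
    rw [Finset.sum_comm, h6]
    have c1 : ∀ x ∈ A, ∑ c ∈ b, κ x * ‖bet G κ A f x c‖ ^ 2 ≤ κ x * (DD G κ A f x / κv) := by
      intro x _
      rw [← Finset.mul_sum]
      refine mul_le_mul_of_nonneg_left ?_ (hN.hκ x).le
      rw [le_div_iff₀ hκv, Finset.sum_mul]
      refine (Finset.sum_le_sum fun c hc => ?_).trans (h5 x b)
      rw [mul_comm]
      exact mul_le_mul_of_nonneg_right (hκb c hc) (sq_nonneg _)
    refine (Finset.sum_le_sum c1).trans (le_of_eq ?_)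
    rw [← mul_assoc, Finset.mul_sum]
    refine Finset.sum_congr rfl fun x _ => ?_
    ring
  refine (Finset.sum_le_sum key1).trans ?_
  rw [← Finset.mul_sum, ← Finset.mul_sum, ← Finset.mul_sum]
  calc S0 * (4 * (r * ∑ c ∈ b, ∑ x ∈ A, κ x * ‖bet G κ A f x c‖ ^ 2))
      ≤ S0 * (4 * (r * (2 / κv * qf (EE G κ A) f))) :=
        mul_le_mul_of_nonneg_left (mul_le_mul_of_nonneg_left
          (mul_le_mul_of_nonneg_left key2 hr) (by norm_num)) hS00
    _ = _ := by ring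

end Pool.Agent.AFJ.H2
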